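import Pool.Agent.H84.SM.Targets2
import Pool.Agent.H27.LV.Curve
import Pool.Agent.H58.LV.DFI

/-!
# MP_70ba79_ag, module WRO: Wronskians of spaces of functions on a curve
-/

set_option autoImplicit false

namespace Pool.Agent.H47.SM

open SC Pool.Agent.H27.LV Pool.Agent.H84.SM

section Tri

variable {K : Type} [Field K]

/-- the coefficients of `D^i (c g)` with respect to the `θ^l g`, `D = e θ` -/
noncomputable def tr (D : K → K) (c e : K) : ℕ → ℕ → K
  | 0, 0 => c
  | 0, _ + 1 => 0
  | i + 1, 0 => D (tr D c e i 0)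
  | i + 1, l + 1 => D (tr D c e i (l + 1)) + e * tr D c e i l

variable {k : Type} [Field k] [Algebra k K]

theorem tr_zero (D : Derivation k K K) (c e : K) : ∀ i l : ℕ, i < l → tr D c e i l = 0 := by
  intro i
  induction i with
  | zero =>
    intro l hl
    rcases l with _ | l
    · exact absurd hl (lt_irrefl _)
    · rfl
  | succ i ih =>
    intro l hl
    rcases l with _ | l
    · exact absurd hl (Nat.not_lt_zero _)
    · show D (tr D c e i (l + 1)) + e * tr D c e i l = 0
      rw [ih (l + 1) (by omega), ih l (by omega), map_zero, mul_zero, add_zero]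

theorem tr_diag (D : Derivation k K K) (c e : K) : ∀ i : ℕ, tr D c e i i = c * e ^ i := by
  intro i
  induction i with
  | zero => show c = c * e ^ 0; rw [pow_zero, mul_one]
  | succ i ih =>
    show D (tr D c e i (i + 1)) + e * tr D c e i i = _
    rw [tr_zero D c e i (i + 1) (Nat.lt_succ_self i), ih, map_zero]
    ring

theorem tr_sum (D θ : Derivation k K K) (c e : K) (h : ∀ z, D z = e * θ z) (g : K) :
    ∀ i : ℕ, D^[i] (c * g) = ∑ l ∈ Finset.range (i + 1), tr D c e i l * θ^[l] g := by
  intro i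
  induction i with
  | zero => simp [tr]
  | succ i ih =>
    rw [Function.iterate_succ_apply', ih, map_sum,
      Finset.sum_range_succ' (fun l => tr D c e (i + 1) l * θ^[l] g) (i + 1)]
    have h1 : ∀ l ∈ Finset.range (i + 1), D (tr D c e i l * θ^[l] g) =
        e * tr D c e i l * θ^[l + 1] g + D (tr D c e i l) * θ^[l] g := by
      intro l _
      rw [D.leibniz, smul_eq_mul, smul_eq_mul, h (θ^[l] g), Function.iterate_succ_apply']
      ring
    rw [Finset.sum_congr rfl h1, Finset.sum_add_distrib]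
    have h2 : ∑ l ∈ Finset.range (i + 1), D (tr D c e i l) * θ^[l] g =
        ∑ l ∈ Finset.range (i + 1), D (tr D c e i (l + 1)) * θ^[l + 1] g +
          D (tr D c e i 0) * θ^[0] g := by
      rw [← Finset.sum_range_succ' (fun l => D (tr D c e i l) * θ^[l] g), Finset.sum_range_succ
        (fun l => D (tr D c e i l) * θ^[l] g) (i + 1), tr_zero D c e i (i + 1)
        (Nat.lt_succ_self i), map_zero, zero_mul, add_zero]
    rw [h2, ← add_assoc, ← Finset.sum_add_distrib]
    refine congrArg₂ (· + ·) (Finset.sum_congr rfl fun l _ => ?_) rfl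
    show _ = (D (tr D c e i (l + 1)) + e * tr D c e i l) * _
    ring

/-- the Wronskian matrix -/
noncomputable def wm (D : K → K) {m : ℕ} (f : Fin m → K) : Matrix (Fin m) (Fin m) K :=
  Matrix.of fun i j => D^[i.1] (f j)

theorem wm_factor (D θ : Derivation k K K) (c e : K) (h : ∀ z, D z = e * θ z) {m : ℕ}
    (g : Fin m → K) : (wm D fun j => c * g j).det =
      (∏ i : Fin m, c * e ^ i.1) * (wm θ g).det := by
  have h1 : (wm D fun j => c * g j) =
      (Matrix.of fun i l : Fin m => tr D c e i.1 l.1) * wm θ g := by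
    ext i j
    rw [Matrix.mul_apply]
    show D^[i.1] (c * g j) = ∑ l : Fin m, tr D c e i.1 l.1 * θ^[l.1] (g j)
    rw [tr_sum D θ c e h (g j) i.1, Fin.sum_univ_eq_sum_range
      (fun l => tr D c e i.1 l * θ^[l] (g j)) m]
    refine Finset.sum_subset (fun l hl => ?_) (fun l _ hl => ?_)
    · rw [Finset.mem_range] at hl ⊢
      have := i.2
      omega
    · rw [Finset.mem_range] at hl
      rw [tr_zero D c e i.1 l (by omega), zero_mul]
  rw [h1, Matrix.det_mul]
  congr 1
  rw [Matrix.det_of_isLowerTriangular]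
  · exact Finset.prod_congr rfl fun i _ => tr_diag D c e i.1
  · intro i j hij
    exact tr_zero D c e i.1 j.1 (by simpa using hij)

/-- the Wronskian of independent functions is not zero -/
theorem wm_ne (D : Derivation k K K) (hD : ∀ z : K, D z = 0 → z ∈ Set.range (algebraMap k K)) :
    ∀ (m : ℕ) (f : Fin m → K), LinearIndependent k f → (wm D f).det ≠ 0 := by
  intro m
  induction m with
  | zero => intro f _; rw [Matrix.det_fin_zero]; exact one_ne_zero
  | succ m ih =>
    intro f hf hdet
    obtain ⟨c, hc0, hc⟩ := Matrix.exists_mulVec_eq_zero_iff.2 hdet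
    have h1 : ∀ i : ℕ, i ≤ m → ∑ j : Fin m, D^[i] (f j.castSucc) * c j.castSucc +
        D^[i] (f (Fin.last m)) * c (Fin.last m) = 0 := by
      intro i hi
      have h2 := congrFun hc ⟨i, Nat.lt_succ_of_le hi⟩
      rw [Matrix.mulVec, dotProduct, Fin.sum_univ_castSucc] at h2
      exact h2
    have hg : LinearIndependent k fun j : Fin m => f j.castSucc :=
      hf.comp _ (Fin.castSucc_injective m)
    have huniq : ∀ b : Fin m → K, (∀ i : ℕ, i < m →
        ∑ j : Fin m, D^[i] (f j.castSucc) * b j = 0) → b = 0 := by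
      intro b hb
      refine Matrix.eq_zero_of_mulVec_eq_zero (ih _ hg) ?_
      funext i
      rw [Matrix.mulVec, dotProduct]
      exact hb i.1 i.2
    by_cases hl : c (Fin.last m) = 0
    · have h3 := huniq (fun j => c j.castSucc) (fun i hi => by
        have := h1 i hi.le
        rwa [hl, mul_zero, add_zero] at this)
      apply hc0
      funext j
      refine Fin.lastCases hl (fun j => congrFun h3 j) j
    · have h3 : ∀ i : ℕ, i ≤ m → ∑ j : Fin m, D^[i] (f j.castSucc) *
          (c j.castSucc / c (Fin.last m)) = - D^[i] (f (Fin.last m)) := by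
        intro i hi
        have h4 := h1 i hi
        have h5 : ∑ j : Fin m, D^[i] (f j.castSucc) * (c j.castSucc / c (Fin.last m)) =
            (∑ j : Fin m, D^[i] (f j.castSucc) * c j.castSucc) / c (Fin.last m) := by
          rw [Finset.sum_div]
          exact Finset.sum_congr rfl fun j _ => by rw [mul_div_assoc]
        rw [h5, div_eq_iff hl]
        linear_combination h4
      have h6 := huniq (fun j => D (c j.castSucc / c (Fin.last m))) (fun i hi => by
        have h7 := congrArg D (h3 i hi.le)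
        rw [map_sum, map_neg, ← Function.iterate_succ_apply' D i (f (Fin.last m)),
          ← h3 (i + 1) hi] at h7
        have h8 : ∀ j ∈ (Finset.univ : Finset (Fin m)), D (D^[i] (f j.castSucc) *
            (c j.castSucc / c (Fin.last m))) = D^[i] (f j.castSucc) *
              D (c j.castSucc / c (Fin.last m)) + D^[i + 1] (f j.castSucc) *
                (c j.castSucc / c (Fin.last m)) := by
          intro j _
          rw [D.leibniz, smul_eq_mul, smul_eq_mul, Function.iterate_succ_apply']
          ring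
        rw [Finset.sum_congr rfl h8, Finset.sum_add_distrib] at h7
        linear_combination h7)
      choose b hb using fun j : Fin m => hD _ (congrFun h6 j)
      have h9 := h3 0 (Nat.zero_le m)
      rw [Fintype.linearIndependent_iff] at hf
      have h10 := hf (Fin.snoc b 1) (by
        rw [Fin.sum_univ_castSucc]
        simp only [Fin.snoc_castSucc, Fin.snoc_last, one_smul]
        have h11 : ∑ j : Fin m, b j • f j.castSucc = - f (Fin.last m) := by
          rw [show - f (Fin.last m) = - D^[0] (f (Fin.last m)) from rfl, ← h9]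
          refine Finset.sum_congr rfl fun j _ => ?_
          rw [Algebra.smul_def, hb j]
          exact mul_comm _ _
        rw [h11, neg_add_cancel]) (Fin.last m)
      rw [Fin.snoc_last] at h10
      exact one_ne_zero h10

end Tri

theorem ord_wm {k K : Type} [Field k] [Field K] [Algebra k K] (v : DV k K) (D : Derivation k K K)
    (δ : ℤ) (hD : ∀ z : K, 0 ≤ v.ord z → ge v δ (D z)) (a : ℤ) {m : ℕ} (f : Fin m → K)
    (hf : ∀ j, ge v (-a) (f j)) (hne : (wm D f).det ≠ 0) :
    ∑ i : Fin m, (-a + δ * i.1) ≤ v.ord (wm D f).det := by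
  have hπ := v.unif_ne_zero
  let c : K := v.unif ^ (-a)
  let e : K := v.unif ^ δ
  have hc : c ≠ 0 := v.unif_zpow_ne_zero _
  have he : e ≠ 0 := v.unif_zpow_ne_zero _
  let θ : Derivation k K K := e⁻¹ • D
  have hθ : ∀ z, θ z = e⁻¹ * D z := fun z => rfl
  have h1 : ∀ z, D z = e * θ z := fun z => by rw [hθ, mul_inv_cancel_left₀ he]
  have hθ0 : ∀ z : K, 0 ≤ v.ord z → 0 ≤ v.ord (θ z) := by
    intro z hz
    rcases hD z hz with h | h
    · rw [hθ, h, mul_zero, v.ord_zero]
    · by_cases h0 : D z = 0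
      · rw [hθ, h0, mul_zero, v.ord_zero]
      · rw [hθ, v.ord_mul' (inv_ne_zero he) h0, v.ord_inv, v.ord_unif_zpow]
        omega
  have hθi : ∀ (i : ℕ) (z : K), 0 ≤ v.ord z → 0 ≤ v.ord (θ^[i] z) := by
    intro i
    induction i with
    | zero => exact fun z hz => hz
    | succ i ih => exact fun z hz => by rw [Function.iterate_succ_apply']; exact hθ0 _ (ih z hz)
  let g : Fin m → K := fun j => c⁻¹ * f j
  have hfg : f = fun j => c * g j := by
    funext j
    show f j = c * (c⁻¹ * f j)
    rw [mul_inv_cancel_left₀ hc]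
  have hg : ∀ j, 0 ≤ v.ord (g j) := by
    intro j
    show 0 ≤ v.ord (c⁻¹ * f j)
    by_cases h0 : f j = 0
    · rw [h0, mul_zero, v.ord_zero]
    · rw [v.ord_mul' (inv_ne_zero hc) h0, v.ord_inv, v.ord_unif_zpow]
      have := (hf j).resolve_left h0
      omega
  have h2 : (wm D f).det = (∏ i : Fin m, c * e ^ i.1) * (wm θ g).det := by
    rw [hfg]
    exact wm_factor D θ c e h1 g
  have h3 : ∏ i : Fin m, c * e ^ i.1 ≠ 0 :=
    Finset.prod_ne_zero_iff.2 fun i _ => mul_ne_zero hc (pow_ne_zero _ he)
  have h4 : (wm θ g).det ≠ 0 := by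
    intro h
    rw [h2, h, mul_zero] at hne
    exact hne rfl
  have h5 : 0 ≤ v.ord (wm θ g).det := by
    rw [Matrix.det_apply]
    refine v.ord_sum_nonneg _ _ fun σ _ => ?_
    have h6 : 0 ≤ v.ord (∏ i : Fin m, wm θ g (σ i) i) :=
      v.ord_prod_nonneg _ _ fun i _ => hθi _ _ (hg i)
    rcases Int.units_eq_one_or (Equiv.Perm.sign σ) with h7 | h7
    · rw [h7, one_smul]
      exact h6
    · rw [h7, Units.neg_smul, one_smul, v.ord_neg]
      exact h6
  rw [h2, v.ord_mul' h3 h4, v.ord_prod _ _ fun i _ => mul_ne_zero hc (pow_ne_zero _ he)]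
  have h8 : ∑ i : Fin m, v.ord (c * e ^ i.1) = ∑ i : Fin m, (-a + δ * i.1) := by
    refine Finset.sum_congr rfl fun i _ => ?_
    rw [v.ord_mul' hc (pow_ne_zero _ he), v.ord_pow, v.ord_unif_zpow, v.ord_unif_zpow]
    ring
  rw [h8]
  omega

theorem sum_aux (m : ℕ) (a δ : ℤ) :
    2 * ∑ i : Fin m, (-a + δ * i.1) = - (2 * m * a) + m * ((m : ℤ) - 1) * δ := by
  rw [Fin.sum_univ_eq_sum_range (fun i => -a + δ * (i : ℤ)) m]
  induction m with
  | zero => simp
  | succ m ih =>
    rw [Finset.sum_range_succ, mul_add, ih]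
    push_cast
    ring

theorem pf_WRO : T_WRO := by
  intro k K _ _ _ _ _ _ htr D hD a ha V hV hf
  obtain ⟨m, hm⟩ : ∃ m, m = Module.finrank k V := ⟨_, rfl⟩
  rw [← hm]
  let b := Module.finBasisOfFinrankEq k V hm.symm
  let f : Fin m → K := fun j => (b j : K)
  have hlin : LinearIndependent k f := b.linearIndependent.map' V.subtype V.ker_subtype
  have hW : (wm D f).det ≠ 0 := wm_ne D (ker k K htr D hD) m f hlin
  have hloc : ∀ v : DV k K, - (2 * (m : ℤ) * (a v : ℤ)) + m * ((m : ℤ) - 1) * ordD v D ≤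
      2 * v.ord (wm D f).det := by
    intro v
    obtain ⟨-, hdor, -⟩ := dor k K htr D hD v
    have h1 := ord_wm v D (ordD v D) hdor.1 (a v) f (fun j => hf _ (b j).2 v) hW
    rw [← sum_aux]
    linarith
  have hpf := pfm k K htr (wm D f).det
  have hfi : {v : DV k K | ordD v D ≠ 0}.Finite := Pool.Agent.H58.LV.dfi dor pfm rat k K htr D hD
  classical
  obtain ⟨s, hs⟩ : ∃ s : Finset (DV k K), s = hpf.1.toFinset ∪ hfi.toFinset ∪ ha.toFinset :=
    ⟨_, rfl⟩
  have hs1 : ∀ v : DV k K, v.ord (wm D f).det ≠ 0 → v ∈ s := fun v hv => by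
    rw [hs]
    exact Finset.mem_union_left _ (Finset.mem_union_left _ (hpf.1.mem_toFinset.2 hv))
  have hs2 : ∀ v : DV k K, ordD v D ≠ 0 → v ∈ s := fun v hv => by
    rw [hs]
    exact Finset.mem_union_left _ (Finset.mem_union_right _ (hfi.mem_toFinset.2 hv))
  have hs3 : ∀ v : DV k K, (a v : ℤ) ≠ 0 → v ∈ s := fun v hv => by
    rw [hs]
    exact Finset.mem_union_right _ (ha.mem_toFinset.2 (by exact_mod_cast hv))
  have e1 : ∑ᶠ v : DV k K, v.ord (wm D f).det = ∑ v ∈ s, v.ord (wm D f).det :=
    finsum_eq_sum_of_support_subset _ fun v hv => hs1 v hv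
  have e2 : ∑ᶠ v : DV k K, ordD v D = ∑ v ∈ s, ordD v D :=
    finsum_eq_sum_of_support_subset _ fun v hv => hs2 v hv
  have e3 : ∑ᶠ v : DV k K, (a v : ℤ) = ∑ v ∈ s, (a v : ℤ) :=
    finsum_eq_sum_of_support_subset _ fun v hv => hs3 v hv
  have h2 := Finset.sum_le_sum fun v (_ : v ∈ s) => hloc v
  rw [Finset.sum_add_distrib, ← Finset.mul_sum, ← Finset.mul_sum, ← e1, hpf.2, ← e2,
    Finset.sum_neg_distrib, ← Finset.mul_sum, ← e3] at h2
  unfold canDeg
  linarith

end Pool.Agent.H47.SM
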