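import Pool.Agent.H69.SM.FINq
import Pool.Agent.H20.SM.TT

/-!
# The proportion of the primitive characters modulo a special modulus, at every height
-/

set_option autoImplicit false

open NumberField NumberField.InfinitePlace Complex Filter Topology MeasureTheory

namespace Pool.Agent.H47.SM

open Pool.Agent.H28.RC Pool.Agent.H25.HK Pool.Agent.H37.CV Pool.Agent.H65.CRZ Pool.Agent.H65.CRG
open Pool.Agent.H20.SM

open scoped Classical in
theorem pf_FINt (hIE : T_IEq) (hPNC : T_PNC) (_hNCR : T_NCR) (hSM : T_SMt) (hFM : T_FMt) :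
    T_FINt := by
  intro F _ _ _ _
  obtain ⟨A₀, hA₀⟩ := hSM F
  refine ⟨max A₀ 1, fun A ε T hA hε hT => ?_⟩
  obtain ⟨t, ht0, ht1, ht2⟩ := choice_t 2 ε (by norm_num) hε
  obtain ⟨x₁, hx1⟩ := hA₀ A t t T (le_trans (le_max_left _ _) hA) ht0 ht1 ht0 hT
  obtain ⟨x₂, hx2⟩ := hFM F A t t T (le_trans (le_max_right _ _) hA) ht0 ht1 ht0 hT
  obtain ⟨x₃, hx3⟩ := hPNC F A t ht0
  refine ⟨max (max x₁ x₂) (max x₃ 3), fun x q hx hq => ?_⟩
  have hxa : x₁ ≤ x := le_trans (le_trans (le_max_left _ _) (le_max_left _ _)) hx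
  have hxb : x₂ ≤ x := le_trans (le_trans (le_max_right _ _) (le_max_left _ _)) hx
  have hxc : x₃ ≤ x := le_trans (le_trans (le_max_left _ _) (le_max_right _ _)) hx
  have hxd : 3 ≤ x := le_trans (le_trans (le_max_right _ _) (le_max_right _ _)) hx
  have hq1 : 1 < q := Pool.Agent.H69.SM.one_lt_of_Sp F A x q hxd hq
  obtain ⟨hfin, -⟩ := hIE F q hq.sq
  obtain ⟨-, hnc, -⟩ := a_OR F (qi F q) (qi F q) (Pool.Agent.H69.SM.qi_ne_bot F q hq1) le_rfl
  set N : ℝ := (nc (qi F q) (qi F q) : ℝ) with hN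
  have hNpos : 0 < N := Nat.cast_pos.2 hnc
  obtain ⟨hcard1, hcard2⟩ := hx3 x q hxc hq
  refine ⟨hfin, ?_, fun u hu => ?_⟩
  · have h2 : 0 < ((Pr F (qi F q)).ncard : ℝ) :=
      lt_of_lt_of_le (mul_pos (by linarith) hNpos) hcard1
    exact_mod_cast h2
  -- Cauchy-Schwarz
  set M : ℝ := Mo F t q with hM
  have e1 := hx1 x q hxa hq u hu
  have e2 := hx2 x q hxb hq u hu
  rw [finsum_mem_eq_finite_toFinset_sum _ hfin] at e1 e2
  have e3 := cs_support hfin.toFinset (fun χ => Zx χ (1 / 2 + u * I))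
    (fun χ => pol M (cu F M u) χ.ψ)
  set W : ℝ := ((hfin.toFinset.filter fun χ => Zx χ (1 / 2 + u * I) ≠ 0).card : ℝ) with hW
  have hW2 : W ≤ ({χ | χ ∈ Pr F (qi F q) ∧ Zx χ (1 / 2 + u * I) ≠ 0}.ncard : ℝ) := by
    rw [hW, ← Set.ncard_coe_finset]
    have : ({χ | χ ∈ Pr F (qi F q) ∧ Zx χ (1 / 2 + u * I) ≠ 0} : Set (RCC F)).Finite :=
      hfin.subset fun χ h => h.1
    have h2 := Set.ncard_le_ncard (s := (↑(hfin.toFinset.filter fun χ =>
      Zx χ (1 / 2 + u * I) ≠ 0) :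
      Set (RCC F))) (t := {χ | χ ∈ Pr F (qi F q) ∧ Zx χ (1 / 2 + u * I) ≠ 0}) (by
        intro χ hχ
        simp only [Finset.coe_filter, Set.Finite.mem_toFinset, Set.mem_ofPred_eq] at hχ ⊢
        exact hχ) this
    exact_mod_cast h2
  have e4 : (1 - t) * N ≤ ‖∑ χ ∈ hfin.toFinset, Zx χ (1 / 2 + u * I) *
      pol M (cu F M u) χ.ψ‖ := by
    have h2 : ‖(nc (qi F q) (qi F q) : ℂ)‖ = N := by rw [Complex.norm_natCast]
    have h3 := norm_sub_norm_le (nc (qi F q) (qi F q) : ℂ)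
      ((nc (qi F q) (qi F q) : ℂ) - ∑ χ ∈ hfin.toFinset, Zx χ (1 / 2 + u * I) *
        pol M (cu F M u) χ.ψ)
    rw [sub_sub_cancel, h2, norm_sub_rev] at h3
    linarith
  have h7 : 0 < 1 - 2 * t := by linarith
  have hden : 0 < 1 + (2 : ℝ) / (1 - 2 * t) + t := by positivity
  have h8 : 1 + 1 / (1 / 2 - t) + t = 1 + (2 : ℝ) / (1 - 2 * t) + t := by
    have h9 : (1 : ℝ) / (1 / 2 - t) = 2 / (1 - 2 * t) := by
      rw [div_eq_div_iff (by linarith) h7.ne']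
      ring
    rw [h9]
  rw [h8] at e1
  have e5 : ((1 - t) * N) ^ 2 ≤ W * ((1 + (2 : ℝ) / (1 - 2 * t) + t) * N) := by
    calc ((1 - t) * N) ^ 2 ≤ ‖∑ χ ∈ hfin.toFinset, Zx χ (1 / 2 + u * I) *
          pol M (cu F M u) χ.ψ‖ ^ 2 :=
          pow_le_pow_left₀ (mul_nonneg (by linarith) hNpos.le) e4 2
      _ ≤ _ := e3
      _ ≤ _ := mul_le_mul_of_nonneg_left e1 (Nat.cast_nonneg _)
  have e6 : (1 - t) ^ 2 / (1 + (2 : ℝ) / (1 - 2 * t) + t) * N ≤ W := by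
    rw [div_mul_eq_mul_div, div_le_iff₀ hden]
    have h2 : ((1 - t) ^ 2 * N) * N ≤ (W * (1 + (2 : ℝ) / (1 - 2 * t) + t)) * N := by
      calc ((1 - t) ^ 2 * N) * N = ((1 - t) * N) ^ 2 := by ring
        _ ≤ _ := e5
        _ = _ := by ring
    exact le_of_mul_le_mul_right h2 hNpos
  refine le_trans ?_ hW2
  refine le_trans ?_ e6
  rw [show (2 : ℝ) + 1 = 3 by norm_num] at ht2
  by_cases h0 : 1 / (3 : ℝ) - ε ≤ 0
  · refine (mul_nonpos_of_nonpos_of_nonneg h0 (Nat.cast_nonneg _)).trans ?_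
    positivity
  · rw [not_le] at h0
    calc (1 / (3 : ℝ) - ε) * ((Pr F (qi F q)).ncard : ℝ)
        ≤ (1 / (3 : ℝ) - ε) * ((1 + t) * N) := mul_le_mul_of_nonneg_left hcard2 h0.le
      _ = ((1 / (3 : ℝ) - ε) * (1 + t)) * N := by ring
      _ ≤ _ := mul_le_mul_of_nonneg_right ht2 hNpos.le

end Pool.Agent.H47.SM
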