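import Pool.Agent.H20.SM.TT
import Pool.Agent.H65.CRG.FG

/-!
# Values and zeros of the Artin L-functions, a cofinal family (MP_347b49_nt)
-/

set_option autoImplicit false

open NumberField NumberField.InfinitePlace Complex Filter Topology MeasureTheory Set

namespace Pool.Agent.H47.SM

open Pool.Agent.H28.RC Pool.Agent.H25.HK Pool.Agent.H37.CV Pool.Agent.H65.CRZ
open Pool.Agent.H65.CRG Pool.Agent.H20.SM

/-- the sum of an indicator -/
private theorem fgt_ind {α : Type} {S : Set α} (hS : S.Finite) (P : α → Prop)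
    [DecidablePred P] : ∑ᶠ a ∈ S, (if P a then (1 : ℝ) else 0) =
      ({a | a ∈ S ∧ P a}.ncard : ℝ) := by
  rw [finsum_mem_eq_finite_toFinset_sum _ hS, Finset.sum_boole, ← Set.ncard_coe_finset]
  have h : (↑(hS.toFinset.filter fun a => P a) : Set α) = {a | a ∈ S ∧ P a} := by
    ext a
    simp only [Finset.coe_filter, Set.Finite.mem_toFinset]
  rw [h]

private theorem fgz_one_lt {F : Type} [Field F] [NumberField F] {A q : ℕ} {x : ℝ} (hx : 3 ≤ x)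
    (h : Sp F A x q) : 1 < q := by
  have hlog : 1 ≤ Real.log x := by
    rw [← Real.log_exp 1]
    refine Real.log_le_log (Real.exp_pos _) ?_
    have := Real.exp_one_lt_d9
    linarith
  have hcard : (1 : ℝ) ≤ (q.primeFactors.card : ℝ) := (one_le_pow₀ hlog).trans h.lo
  have hcard' : 0 < q.primeFactors.card := by
    have : (0 : ℝ) < (q.primeFactors.card : ℝ) := by linarith
    exact_mod_cast this
  obtain ⟨p, hp⟩ := Finset.card_pos.mp hcard'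
  have h1 := (Nat.prime_of_mem_primeFactors hp).one_lt
  exact h1.trans_le (Nat.le_of_dvd (Nat.pos_of_ne_zero h.sq.1.ne_zero)
    (Nat.dvd_of_mem_primeFactors hp))

open scoped Classical in
theorem pf_FGt (hTF : T_TFz) (hFH : T_FHz) (hFZ : T_FZz) (hFIN : T_FINt) : T_FGt := by
  intro F _ _ _ _
  obtain ⟨d, hd⟩ : ∃ d : ℝ, d = (Module.finrank ℚ F : ℝ) := ⟨_, rfl⟩
  have hd0' : 0 < Module.finrank ℚ F := Module.finrank_pos
  have hd1 : 1 ≤ d := by rw [hd]; exact_mod_cast hd0'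
  have hd0 : 0 < d := by linarith
  obtain ⟨A₀, hFH⟩ := hFH F
  obtain ⟨A₁, hFIN⟩ := hFIN F
  refine ⟨max (max A₀ 1) A₁, fun A ε₀ hA' hε₀ => ?_⟩
  have hA : max A₀ 1 ≤ A := (le_max_left _ _).trans hA'
  obtain ⟨T₁, hT₁, hFH⟩ := hFH A ((le_max_left _ _).trans hA)
  obtain ⟨e, he⟩ : ∃ e : ℝ, e = min (min ε₀ (1 / 10)) (ε₀ / 4) := ⟨_, rfl⟩
  have he0 : 0 < e := by
    rw [he]
    exact lt_min (lt_min hε₀ (by norm_num)) (by linarith)
  have heε : e ≤ ε₀ := by rw [he]; exact (min_le_left _ _).trans (min_le_left _ _)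
  have he2 : e ≤ 1 / 10 := by rw [he]; exact (min_le_left _ _).trans (min_le_right _ _)
  have heε4 : 4 * e ≤ ε₀ := by
    have : e ≤ ε₀ / 4 := by rw [he]; exact min_le_right _ _
    linarith
  obtain ⟨x₁, hTF⟩ := hTF F A e ((le_max_right _ _).trans hA) he0
  obtain ⟨T₂, hT₂, hFZ⟩ := hFZ F A e he0
  refine ⟨max T₁ T₂, lt_of_lt_of_le hT₁ (le_max_left _ _), fun T hT => ?_⟩
  have hT0 : 0 < T := lt_of_lt_of_le hT₁ ((le_max_left _ _).trans hT)
  obtain ⟨x₂, hFH⟩ := hFH T ((le_max_left _ _).trans hT)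
  obtain ⟨x₃, hFZ⟩ := hFZ T ((le_max_right _ _).trans hT)
  obtain ⟨x₄, hFIN⟩ := hFIN A e T ((le_max_right _ _).trans hA') he0 hT0
  refine ⟨max (max (max x₁ 3) (max x₂ x₃)) x₄, fun x q hx' hq L _ _ _ _ hL => ?_⟩
  have hx : max (max x₁ 3) (max x₂ x₃) ≤ x := (le_max_left _ _).trans hx'
  obtain ⟨-, -, hFIN⟩ := hFIN x q ((le_max_right _ _).trans hx') hq
  have hx1 : x₁ ≤ x := ((le_max_left _ _).trans (le_max_left _ _)).trans hx
  have hx3 : (3 : ℝ) ≤ x := ((le_max_right _ _).trans (le_max_left _ _)).trans hx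
  obtain ⟨hIf, U, Λ, hUI, hU1, hU2, hU3, hU4⟩ := hTF x q hx1 hq L hL
  obtain ⟨hH1, hH3⟩ := hFH x q (((le_max_left _ _).trans (le_max_right _ _)).trans hx) hq
  obtain ⟨hPf, hPpos, hZ⟩ := hFZ x q (((le_max_right _ _).trans (le_max_right _ _)).trans hx) hq
  rw [← hd] at hH3 hU3
  simp only [← hd] at hU4 hZ ⊢
  obtain ⟨X, hX⟩ : ∃ X : ℝ, X = T / Real.pi * (d / 2 * Real.log q) := ⟨_, rfl⟩
  have hlq : 0 < Real.log q := Real.log_pos (by exact_mod_cast fgz_one_lt hx3 hq)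
  have hX0 : 0 < X := by
    rw [hX]
    have := Real.pi_pos
    positivity
  rw [← hX] at hH3
  simp only [← hX] at hZ ⊢
  obtain ⟨n, hn⟩ : ∃ n : ℝ, n = ((Pr F (qi F q)).ncard : ℝ) := ⟨_, rfl⟩
  have hn0 : 0 < n := by rw [hn]; exact_mod_cast hPpos
  rw [← hn] at hH3 hU3 hU4
  have hUf : U.Finite := hIf.subset hUI
  have hIrr : 0 ≤ ((Pool.Agent.H37.CA.Irr (L ≃ₐ[ℚ] L)).ncard : ℝ) := Nat.cast_nonneg _
  -- the sums
  have hw2 := hU4 (fun g => ((SZ g 0 T).ncard : ℝ)) ((1 + e) * X) (fun χ hχ =>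
    ⟨Nat.cast_nonneg _, ((hH1 χ hχ).2).trans (hZ χ hχ).2.2⟩)
  have hzcU : ∑ᶠ f ∈ U, zc (Λ f) (St T) ≤ (U.ncard : ℝ) * ((1 + e) * X) := by
    have h1 : ∑ᶠ f ∈ U, zc (Λ f) (St T) ≤ ∑ᶠ f ∈ U, ((1 + e) * X) := by
      refine fsum_mono hUf fun f hf => ?_
      obtain ⟨_, _, ⟨χ, hχ, hΛ⟩, _⟩ := hU2 f hf
      rw [hΛ]
      exact (hZ χ hχ).2.2
    refine h1.trans (le_of_eq ?_)
    rw [finsum_mem_eq_finite_toFinset_sum _ hUf, Finset.sum_const, nsmul_eq_mul,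
      Set.ncard_eq_toFinset_card _ hUf]
  have hu0 : (0 : ℝ) ≤ (U.ncard : ℝ) := Nat.cast_nonneg _
  have hUpos : 0 < U.ncard := by
    rcases Nat.eq_zero_or_pos U.ncard with h0 | h0
    · exfalso
      have hUe : U = ∅ := (Set.ncard_eq_zero hUf).1 h0
      have h1 := hH3.trans hw2
      rw [hUe, finsum_mem_empty, mul_zero, zero_add] at h1
      have h2 : 0 < X * n := mul_pos hX0 hn0
      have h3 : 345 / 1000 * (X * n) ≤ e * (1 + e) * (X * n) := by nlinarith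
      have h4 := le_of_mul_le_mul_right h3 h2
      nlinarith
    · exact h0
  -- the values
  have hval : ∀ t : ℝ, |t| ≤ T → (1 / 3 - ε₀) *
      (Pool.Agent.H37.CA.Irr (L ≃ₐ[ℚ] L)).ncard ≤
        ({f | f ∈ U ∧ Λ f (1 / 2 + t * I) ≠ 0}.ncard : ℝ) := by
    intro t ht
    have v1 := hFIN t ht
    have v2 := hU4 (fun g => if g (1 / 2 + t * I) ≠ 0 then (1 : ℝ) else 0) 1 (fun χ _ => by
      split_ifs <;> norm_num)
    rw [fgt_ind hPf (fun χ => Zx χ (1 / 2 + t * I) ≠ 0),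
      fgt_ind hUf (fun f => Λ f (1 / 2 + t * I) ≠ 0)] at v2
    rw [← hn] at v1
    obtain ⟨R, hR⟩ : ∃ R : ℝ, R = ({f | f ∈ U ∧ Λ f (1 / 2 + t * I) ≠ 0}.ncard : ℝ) :=
      ⟨_, rfl⟩
    obtain ⟨J, hJ⟩ : ∃ J : ℝ, J = ((Pool.Agent.H37.CA.Irr (L ≃ₐ[ℚ] L)).ncard : ℝ) := ⟨_, rfl⟩
    rw [← hR] at v2 ⊢
    rw [← hJ] at hU1 hIrr ⊢
    have hR0 : 0 ≤ R := by rw [hR]; exact Nat.cast_nonneg _
    rcases le_or_gt (1 / 3 : ℝ) ε₀ with hle | hgt
    · exact (mul_nonpos_of_nonpos_of_nonneg (by linarith) hIrr).trans hR0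
    · have v3 : (1 / 3 - 2 * e) * n ≤ d * R := by linarith
      have v4 : d * ((1 - e) * J) ≤ (1 + e) * n :=
        (mul_le_mul_of_nonneg_left hU1 hd0.le).trans hU3
      have v5 : (1 / 3 - ε₀) * (1 + e) ≤ (1 / 3 - 2 * e) * (1 - e) := by nlinarith
      have v6 : d * ((1 - e) * ((1 / 3 - ε₀) * J)) ≤ d * ((1 - e) * R) := by
        calc d * ((1 - e) * ((1 / 3 - ε₀) * J)) = (1 / 3 - ε₀) * (d * ((1 - e) * J)) := by ring
          _ ≤ (1 / 3 - ε₀) * ((1 + e) * n) := mul_le_mul_of_nonneg_left v4 (by linarith)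
          _ = ((1 / 3 - ε₀) * (1 + e)) * n := by ring
          _ ≤ ((1 / 3 - 2 * e) * (1 - e)) * n := mul_le_mul_of_nonneg_right v5 hn0.le
          _ = (1 - e) * ((1 / 3 - 2 * e) * n) := by ring
          _ ≤ (1 - e) * (d * R) := mul_le_mul_of_nonneg_left v3 (by linarith)
          _ = d * ((1 - e) * R) := by ring
      have v7 := le_of_mul_le_mul_left v6 hd0
      exact le_of_mul_le_mul_left v7 (by linarith)
  refine ⟨hIf, U, Λ, hUI, ?_, hUpos, fun f hf => ?_, ?_⟩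
  · refine le_trans ?_ hU1
    exact mul_le_mul_of_nonneg_right (by linarith) hIrr
  · obtain ⟨h1, h2, ⟨χ, hχ, hΛ⟩, h3, h4⟩ := hU2 f hf
    refine ⟨h1, h2, h3, h4, ?_, ?_⟩
    · rw [hΛ]; exact (hZ χ hχ).2.1
    · rw [hΛ]
      refine (hZ χ hχ).2.2.trans ?_
      exact mul_le_mul_of_nonneg_right (by linarith) hX0.le
  · have hSnn : 0 ≤ ∑ᶠ f ∈ U, ((SZ (Λ f) 0 T).ncard : ℝ) :=
      fsum_nonneg hUf fun _ _ => Nat.cast_nonneg _
    have hznn : 0 ≤ ∑ᶠ f ∈ U, zc (Λ f) (St T) := by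
      refine fsum_nonneg hUf fun f hf => ?_
      obtain ⟨_, _, ⟨χ, hχ, hΛ⟩, _⟩ := hU2 f hf
      rw [hΛ]
      exact (Nat.cast_nonneg _).trans (hH1 χ hχ).2
    rcases le_or_gt (345 / 1000 : ℝ) ε₀ with hle | hgt
    · refine ⟨?_, ?_, hval⟩
      · refine le_trans ?_ hSnn
        exact mul_nonpos_of_nonpos_of_nonneg
          (mul_nonpos_of_nonpos_of_nonneg (by linarith) hX0.le) hu0
      · refine le_trans ?_ hSnn
        exact mul_nonpos_of_nonpos_of_nonneg (by linarith) hznn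
    · obtain ⟨k1, k2⟩ := num_FG hd0 hX0.le (by linarith) (by linarith) he0 (by linarith)
        (by linarith : (345 / 1000 - ε₀) + 4 * e ≤ 345 / 1000)
        hn0.le hu0 hU3 (hH3.trans hw2) hzcU
      exact ⟨k1, k2, hval⟩

end Pool.Agent.H47.SM
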